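import Pool.Agent.Helper8.ArtinPowB

set_option autoImplicit false
open Filter Classical

namespace Pool.Agent.Results.MP_991e92_nt.PowerSaving

open Pool.Agent.Helper6 Pool.Agent.Helper8.ArtinLS Pool.Agent.Helper8.ArtinC

/-- Artin's primitive root density with the correction factor: a power saving exceptional set,
simultaneously for all `x` from `Y` up to `N ^ A`. -/
theorem result :
    ∀ A θ ε : ℝ, 0 < A → 0 < θ → 0 < ε → ∃ C : ℝ, 0 < C ∧ ∃ X₀ : ℕ, ∀ N Y : ℕ, 3 ≤ N → X₀ ≤ Y →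
        (((Finset.Icc (-(N : ℤ)) N).filter (fun n : ℤ =>
          n ≠ 0 ∧ ∃ n' : ℤ, Squarefree n' ∧ (∃ m : ℤ, n = n' * m ^ 2) ∧ n' % 4 = 1 ∧
            ¬ (∀ x : ℕ, Y ≤ x → (x : ℝ) ≤ (N : ℝ) ^ A →
              |((((Finset.range (x + 1)).filter
                  (fun p : ℕ => p.Prime ∧ orderOf (n : ZMod p) = p - 1)).card : ℕ) : ℝ) /
                  ((Nat.primeCounting x : ℕ) : ℝ) -
                (1 - ((ArithmeticFunction.moebius n'.natAbs : ℤ) : ℝ) *
                    ∏ q ∈ n'.natAbs.primeFactors, (1 / ((q : ℝ) ^ 2 - (q : ℝ) - 1))) *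
                  ∏' p : Nat.Primes, (1 - 1 / (((p : ℕ) : ℝ) * (((p : ℕ) : ℝ) - 1)))| ≤ ε))).card : ℝ)
          ≤ C * (N * (Real.log Y) ^ 4 / Y + (N : ℝ) ^ (2 / 3 + θ : ℝ)) := by
  intro A θ ε hA hθ hε
  obtain ⟨C₁, hC₁, X₁, hX₁⟩ := artin_all_power 1 (by norm_num) CA CA_bounds.1
    (CA_bounds.2.trans (by norm_num)) main_CA A θ (ε / 2) hA hθ (by positivity)
  obtain ⟨C₂, hC₂, X₂, hX₂⟩ := artin_all_power (-1) (by norm_num) CA CA_bounds.1
    (CA_bounds.2.trans (by norm_num)) main_CA A θ (ε / 2) hA hθ (by positivity)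
  set B : ℕ := ⌈2 / ε⌉₊ with hB
  refine ⟨C₁ + C₂ + ((2 * B + 1 : ℕ) : ℝ) * 2, by positivity, max X₁ X₂, ?_⟩
  intro N Y hN3 hY
  have hN1 : (1:ℝ) ≤ N := by exact_mod_cast (by omega : 1 ≤ N)
  have hN0 : (0:ℝ) < N := by linarith
  have hlogY : 0 ≤ Real.log Y := Real.log_natCast_nonneg Y
  have hY0 : (0:ℝ) ≤ Y := Nat.cast_nonneg Y
  set V : ℝ := N * (Real.log Y) ^ 4 / Y + (N : ℝ) ^ (2 / 3 + θ : ℝ) with hV
  set E₁ : Finset ℕ := (Finset.Icc 1 N).filter (fun m : ℕ => ∃ x : ℕ, Y ≤ x ∧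
    (x:ℝ) ≤ (N:ℝ)^A ∧ ε / 2 < |artinP (1 * (m:ℤ)) x / Nat.primeCounting x - CA|) with hE₁
  set E₂ : Finset ℕ := (Finset.Icc 1 N).filter (fun m : ℕ => ∃ x : ℕ, Y ≤ x ∧
    (x:ℝ) ≤ (N:ℝ)^A ∧ ε / 2 < |artinP (-1 * (m:ℤ)) x / Nat.primeCounting x - CA|) with hE₂
  have hE₁c : (E₁.card : ℝ) ≤ C₁ * V :=
    hX₁ N Y hN3 ((le_max_left _ _).trans hY) E₁ (Finset.filter_subset _ _)
      (fun m hm => (Finset.mem_filter.mp hm).2)
  have hE₂c : (E₂.card : ℝ) ≤ C₂ * V :=
    hX₂ N Y hN3 ((le_max_right _ _).trans hY) E₂ (Finset.filter_subset _ _)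
      (fun m hm => (Finset.mem_filter.mp hm).2)
  set E₃ : Finset ℤ := (Finset.Icc (-(N : ℤ)) N).filter (fun n : ℤ => n ≠ 0 ∧
    ∃ b : ℤ, b.natAbs ≤ B ∧ ∃ m : ℤ, n = b * m ^ 2) with hE₃
  have hE₃c : (E₃.card : ℝ) ≤ (((2 * B + 1 : ℕ) : ℝ) * 2) * V := by
    have h4 := small_part_count B N E₃ (fun n hn => by
      rw [hE₃, Finset.mem_filter, Finset.mem_Icc] at hn
      exact ⟨by omega, hn.2.1⟩) (fun n hn => (Finset.mem_filter.mp hn).2.2)
    have h5 : (E₃.card : ℝ) ≤ ((2 * B + 1 : ℕ) : ℝ) * ((Nat.sqrt N : ℝ) + 1) := by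
      exact_mod_cast h4
    have h3 : (Nat.sqrt N : ℝ) ≤ (N : ℝ) ^ (1/2 : ℝ) := by
      rw [← Real.sqrt_eq_rpow]
      exact Real.nat_sqrt_le_real_sqrt
    have h6 : (1 : ℝ) ≤ (N : ℝ) ^ (1/2 : ℝ) := Real.one_le_rpow hN1 (by norm_num)
    have h7 : (N : ℝ) ^ (1/2 : ℝ) ≤ (N : ℝ) ^ (2/3 + θ : ℝ) :=
      Real.rpow_le_rpow_of_exponent_le hN1 (by linarith)
    have h8 : 0 ≤ N * (Real.log Y) ^ 4 / Y := by positivity
    calc (E₃.card : ℝ) ≤ ((2 * B + 1 : ℕ) : ℝ) * ((Nat.sqrt N : ℝ) + 1) := h5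
      _ ≤ ((2 * B + 1 : ℕ) : ℝ) * (2 * V) := by
          apply mul_le_mul_of_nonneg_left _ (Nat.cast_nonneg _)
          rw [hV]
          linarith
      _ = _ := by ring
  refine le_trans (b := (((E₁.image (fun m : ℕ => (m:ℤ))) ∪ (E₂.image (fun m : ℕ => -(m:ℤ))) ∪ E₃).card : ℝ)) ?_ ?_
  · refine Nat.cast_le.mpr (Finset.card_le_card ?_)
    intro n hn
    rw [Finset.mem_filter] at hn
    obtain ⟨hnI, hn0, b, hbsq, ⟨m, hm⟩, hb4, hbad⟩ := hn
    rw [Finset.mem_union, Finset.mem_union]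
    by_cases hbB : b.natAbs ≤ B
    · right
      rw [hE₃, Finset.mem_filter]
      exact ⟨hnI, hn0, b, hbB, m, hm⟩
    · left
      push Not at hbB
      obtain ⟨x, hx⟩ := not_forall.mp hbad
      obtain ⟨hx1, hx'⟩ := Classical.not_imp.mp hx
      obtain ⟨hx2, hx3⟩ := Classical.not_imp.mp hx'
      rw [not_le] at hx3
      have hclose := dlt_close hbsq hb4
      have hBε : 1 / (b.natAbs : ℝ) ≤ ε / 2 := by
        have h5 : 2 / ε ≤ (B : ℝ) := Nat.le_ceil _
        have h6 : (B : ℝ) ≤ b.natAbs := by exact_mod_cast hbB.le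
        have h7 : 0 < 2 / ε := by positivity
        calc 1 / (b.natAbs : ℝ) ≤ 1 / (2 / ε) := by
              apply one_div_le_one_div_of_le h7 (h5.trans h6)
          _ = ε / 2 := by field_simp
      have hkey : ε / 2 < |artinP n x / Nat.primeCounting x - CA| := by
        have h8 : artinP n x = ((((Finset.range (x + 1)).filter
                  (fun p : ℕ => p.Prime ∧ orderOf (n : ZMod p) = p - 1)).card : ℕ) : ℝ) := by
          unfold artinP
          congr!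
        have h9 : ε < |artinP n x / Nat.primeCounting x - dlt b| := by
          rw [h8]
          exact hx3
        have h10 : |artinP n x / Nat.primeCounting x - dlt b| ≤
            |artinP n x / Nat.primeCounting x - CA| + |dlt b - CA| := by
          calc |artinP n x / Nat.primeCounting x - dlt b| =
              |(artinP n x / Nat.primeCounting x - CA) - (dlt b - CA)| := by ring_nf
            _ ≤ _ := abs_sub _ _
        linarith
      rw [Finset.mem_Icc] at hnI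
      rcases lt_trichotomy n 0 with hneg | hz | hpos
      · right
        rw [Finset.mem_image]
        refine ⟨n.natAbs, ?_, by omega⟩
        rw [hE₂, Finset.mem_filter, Finset.mem_Icc]
        refine ⟨by omega, x, hx1, hx2, ?_⟩
        have : (-1 * (n.natAbs : ℤ)) = n := by omega
        rw [this]
        exact hkey
      · exact absurd hz hn0
      · left
        rw [Finset.mem_image]
        refine ⟨n.natAbs, ?_, by omega⟩
        rw [hE₁, Finset.mem_filter, Finset.mem_Icc]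
        refine ⟨by omega, x, hx1, hx2, ?_⟩
        have : (1 * (n.natAbs : ℤ)) = n := by omega
        rw [this]
        exact hkey
  · calc (((E₁.image (fun m : ℕ => (m:ℤ))) ∪ (E₂.image (fun m : ℕ => -(m:ℤ))) ∪ E₃).card : ℝ)
        ≤ ((E₁.card : ℝ) + E₂.card) + E₃.card := by
          have h11 := Finset.card_union_le ((E₁.image (fun m : ℕ => (m:ℤ))) ∪ (E₂.image (fun m : ℕ => -(m:ℤ)))) E₃
          have h12 := Finset.card_union_le (E₁.image (fun m : ℕ => (m:ℤ))) (E₂.image (fun m : ℕ => -(m:ℤ)))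
          have h13 : (E₁.image (fun m : ℕ => (m:ℤ))).card ≤ E₁.card := Finset.card_image_le
          have h14 : (E₂.image (fun m : ℕ => -(m:ℤ))).card ≤ E₂.card := Finset.card_image_le
          exact_mod_cast (by omega : _ ≤ (E₁.card + E₂.card) + E₃.card)
      _ ≤ (C₁ * V + C₂ * V) + (((2 * B + 1 : ℕ) : ℝ) * 2) * V := by gcongr
      _ = _ := by ring

end Pool.Agent.Results.MP_991e92_nt.PowerSaving
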