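import Pool.Agent.Helper6.ArtinExtra

set_option autoImplicit false
open Filter Classical

namespace Pool.Agent.ARX.Older.SquareClassAlmostAll

/-- Artin's primitive root density with the correction factor, for almost all members of every
square class `n = b m ^ 2` (`b` squarefree, `b = 1 mod 4`, `b ≠ 1`), simultaneously for all `x` from a
constant up to `exp (M ^ c)`. -/
theorem result :
    ∀ η : ℝ, 0 < η → ∃ c : ℝ, 0 < c ∧
      ∀ b : ℤ, Squarefree b → b % 4 = 1 → b ≠ 1 →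
      ∀ ε : ℝ, 0 < ε → ∃ X₀ : ℕ, ∀ᶠ M : ℕ in atTop,
        (((Finset.Icc 1 M).filter (fun m : ℕ =>
          ¬ ((¬ ∃ k : ℤ, ∃ r : ℕ, 1 < r ∧ b * (m : ℤ) ^ 2 = k ^ r) ∧
            ∀ x : ℕ, X₀ ≤ x → (x : ℝ) ≤ Real.exp ((M : ℝ) ^ c) →
              |((((Finset.range (x + 1)).filter
                  (fun p : ℕ => p.Prime ∧
                    orderOf ((b * (m : ℤ) ^ 2 : ℤ) : ZMod p) = p - 1)).card : ℕ) : ℝ) /
                  ((Nat.primeCounting x : ℕ) : ℝ) -
                (1 - ((ArithmeticFunction.moebius b.natAbs : ℤ) : ℝ) *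
                    ∏ q ∈ b.natAbs.primeFactors, (1 / ((q : ℝ) ^ 2 - (q : ℝ) - 1))) *
                  ∏' p : Nat.Primes, (1 - 1 / (((p : ℕ) : ℝ) * (((p : ℕ) : ℝ) - 1)))| ≤ ε))).card : ℝ)
          ≤ η * M := by
  intro η hη
  obtain ⟨c, hc, h⟩ := Pool.Agent.Helper6.artin_square_class_of Pool.Agent.Helper6.lsHyp1
    Pool.Agent.Helper6.lsHyp2 (η / 2) (by positivity)
  refine ⟨c, hc, ?_⟩
  intro b hb hb4 hb1 ε hε
  have hmain := Pool.Agent.Helper7.main_term hb hb4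
  have hb2 := Pool.Agent.Helper6.delta_bounds (b := b) hmain
  obtain ⟨X₀, hX⟩ := h b hb.ne_zero _ hb2.1 hb2.2 hmain ε hε
  refine ⟨X₀, ?_⟩
  filter_upwards [hX, Pool.Agent.Helper6.perfect_power_count b hb hb4 hb1 (η / 2) (by positivity)]
    with M h1 h2
  set P : ℕ → Prop := fun m => ∃ k : ℤ, ∃ r : ℕ, 1 < r ∧ b * (m : ℤ) ^ 2 = k ^ r with hP
  set δ : ℝ := (1 - ((ArithmeticFunction.moebius b.natAbs : ℤ) : ℝ) *
                    ∏ q ∈ b.natAbs.primeFactors, (1 / ((q : ℝ) ^ 2 - (q : ℝ) - 1))) *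
                  ∏' p : Nat.Primes, (1 - 1 / (((p : ℕ) : ℝ) * (((p : ℕ) : ℝ) - 1))) with hδ
  set Q : ℕ → Prop := fun m => ∃ x : ℕ, X₀ ≤ x ∧ (x:ℝ) ≤ Real.exp ((M:ℝ)^c) ∧
        ε < |Pool.Agent.Helper6.artinP (b * (m:ℤ)^2) x / Nat.primeCounting x - δ| with hQ
  have key : ∀ m x : ℕ, Pool.Agent.Helper6.artinP (b * (m:ℤ)^2) x =
      ((((Finset.range (x + 1)).filter
                  (fun p : ℕ => p.Prime ∧
                    orderOf ((b * (m : ℤ) ^ 2 : ℤ) : ZMod p) = p - 1)).card : ℕ) : ℝ) := by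
    intro m x
    unfold Pool.Agent.Helper6.artinP
    congr!
  have hsub : (Finset.Icc 1 M).filter (fun m : ℕ =>
          ¬ ((¬ ∃ k : ℤ, ∃ r : ℕ, 1 < r ∧ b * (m : ℤ) ^ 2 = k ^ r) ∧
            ∀ x : ℕ, X₀ ≤ x → (x : ℝ) ≤ Real.exp ((M : ℝ) ^ c) →
              |((((Finset.range (x + 1)).filter
                  (fun p : ℕ => p.Prime ∧
                    orderOf ((b * (m : ℤ) ^ 2 : ℤ) : ZMod p) = p - 1)).card : ℕ) : ℝ) /
                  ((Nat.primeCounting x : ℕ) : ℝ) - δ| ≤ ε)) ⊆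
      (Finset.Icc 1 M).filter P ∪ (Finset.Icc 1 M).filter Q := by
    intro m hm
    rw [Finset.mem_filter] at hm
    rw [Finset.mem_union, Finset.mem_filter, Finset.mem_filter]
    by_cases hp : P m
    · exact Or.inl ⟨hm.1, hp⟩
    · right
      refine ⟨hm.1, ?_⟩
      by_contra hq
      apply hm.2
      refine ⟨hp, ?_⟩
      intro x hx1 hx2
      by_contra hcon
      apply hq
      refine ⟨x, hx1, hx2, ?_⟩
      push Not at hcon
      rw [key]
      exact hcon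
  have h3 := h1 ((Finset.Icc 1 M).filter Q) (Finset.filter_subset _ _)
    (fun m hm => (Finset.mem_filter.mp hm).2)
  have h4 := h2 ((Finset.Icc 1 M).filter P) (Finset.filter_subset _ _)
    (fun m hm => (Finset.mem_filter.mp hm).2)
  calc _ ≤ ((((Finset.Icc 1 M).filter P ∪ (Finset.Icc 1 M).filter Q).card : ℕ) : ℝ) := by
        exact_mod_cast Finset.card_le_card hsub
    _ ≤ (((Finset.Icc 1 M).filter P).card : ℝ) + (((Finset.Icc 1 M).filter Q).card : ℝ) := by
        exact_mod_cast Finset.card_union_le _ _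
    _ ≤ η / 2 * M + η / 2 * M := add_le_add h4 h3
    _ = η * M := by ring

end Pool.Agent.ARX.Older.SquareClassAlmostAll
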