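import Pool.Agent.Helper6.ArtinPrimes

set_option autoImplicit false
open Filter Classical

namespace Pool.Agent.Results.MP_991e92_nt.SquareClassPrimes

lemma not_power {b : ℤ} (hb : Squarefree b) (hb4 : b % 4 = 1) (hb1 : b ≠ 1) {l : ℕ} (hl : l.Prime)
    (h : ∃ k : ℤ, ∃ r : ℕ, 1 < r ∧ b * (l : ℤ) ^ 2 = k ^ r) : l = b.natAbs := by
  obtain ⟨k, r, hr, hkr⟩ := h
  set B : ℕ := b.natAbs with hB
  have hBsq : Squarefree B := Int.squarefree_natAbs.2 hb
  have hB0 : B ≠ 0 := hBsq.ne_zero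
  have hB1 : B ≠ 1 := by
    intro h1
    rw [hB] at h1
    rcases Int.natAbs_eq_iff.mp h1 with h | h
    · exact hb1 (by simpa using h)
    · rw [h] at hb4; norm_num at hb4
  have habs : B * l ^ 2 = k.natAbs ^ r := by
    have := congrArg Int.natAbs hkr
    rw [Int.natAbs_mul, Int.natAbs_pow, Int.natAbs_pow, Int.natAbs_natCast] at this
    exact this
  have hval : ∀ q : ℕ, B.factorization q + 2 * l.factorization q = r * k.natAbs.factorization q := by
    intro q
    have h1 := congrArg (fun n => n.factorization q) habs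
    simp only [Nat.factorization_mul hB0 (pow_ne_zero 2 hl.ne_zero), Nat.factorization_pow,
      Finsupp.add_apply, Finsupp.smul_apply, smul_eq_mul] at h1
    exact h1
  -- every prime divisor of B is l
  have hall : ∀ q : ℕ, q.Prime → q ∣ B → q = l := by
    intro q hq hqB
    by_contra hne
    have h1 : B.factorization q = 1 := by
      have h2 := hBsq.natFactorization_le_one q
      have h3 := (hq.dvd_iff_one_le_factorization hB0).mp hqB
      omega
    have h4 : l.factorization q = 0 := by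
      rw [hl.factorization]
      simp [Ne.symm hne]
    have h5 := hval q
    rw [h1, h4] at h5
    have h6 : r ∣ 1 := ⟨_, by simpa using h5⟩
    have := Nat.le_of_dvd one_pos h6
    omega
  obtain ⟨q, hq, hqB⟩ := Nat.exists_prime_and_dvd hB1
  have hql := hall q hq hqB
  subst hql
  obtain ⟨c, hc⟩ := hqB
  by_cases hc1 : c = 1
  · rw [hc, hc1, mul_one]
  · obtain ⟨q', hq', hqc⟩ := Nat.exists_prime_and_dvd hc1
    have h7 := hall q' hq' (hc ▸ Dvd.dvd.mul_left hqc q)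
    subst h7
    obtain ⟨d, hd⟩ := hqc
    have h8 : q' * q' ∣ B := ⟨d, by rw [hc, hd]; ring⟩
    have h9 := hBsq q' h8
    exact absurd (Nat.isUnit_iff.mp h9) hq.ne_one

/-- Artin's primitive root density with the correction factor for the thin family `n = b l ^ 2`,
`l` prime, with a quantitative exceptional set, simultaneously for all `x` from `Y` up to
`exp (M ^ (1/100))`. -/
theorem result :
    ∀ b : ℤ, Squarefree b → b % 4 = 1 → b ≠ 1 → ∀ ε : ℝ, 0 < ε →
      ∃ C : ℝ, 0 < C ∧ ∃ X₀ : ℕ, ∀ M Y : ℕ, 3 ≤ M → X₀ ≤ Y →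
        (((Finset.Icc 1 M).filter (fun l : ℕ => l.Prime ∧
          ¬ ((¬ ∃ k : ℤ, ∃ r : ℕ, 1 < r ∧ b * (l : ℤ) ^ 2 = k ^ r) ∧
            ∀ x : ℕ, Y ≤ x → (x : ℝ) ≤ Real.exp ((M : ℝ) ^ (1 / 100 : ℝ)) →
              |((((Finset.range (x + 1)).filter
                  (fun p : ℕ => p.Prime ∧
                    orderOf ((b * (l : ℤ) ^ 2 : ℤ) : ZMod p) = p - 1)).card : ℕ) : ℝ) /
                  ((Nat.primeCounting x : ℕ) : ℝ) -
                (1 - ((ArithmeticFunction.moebius b.natAbs : ℤ) : ℝ) *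
                    ∏ q ∈ b.natAbs.primeFactors, (1 / ((q : ℝ) ^ 2 - (q : ℝ) - 1))) *
                  ∏' p : Nat.Primes, (1 - 1 / (((p : ℕ) : ℝ) * (((p : ℕ) : ℝ) - 1)))| ≤ ε))).card : ℝ)
          ≤ C * (M * (Real.log Y) ^ 4 / Y + (M : ℝ) ^ (15 / 16 : ℝ)) := by
  intro b hb hb4 hb1 ε hε
  have hmain := Pool.Agent.Helper7.main_term hb hb4
  have hb2 := Pool.Agent.Helper6.delta_bounds (b := b) hmain
  obtain ⟨C, hC, X₀, h⟩ := Pool.Agent.Helper6.artin_primes b hb.ne_zero _ hb2.1 hb2.2 hmain ε hε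
  refine ⟨C + 1, by positivity, X₀, ?_⟩
  intro M Y hM hY
  have h1 := h M Y hM hY
  set δ : ℝ := (1 - ((ArithmeticFunction.moebius b.natAbs : ℤ) : ℝ) *
                    ∏ q ∈ b.natAbs.primeFactors, (1 / ((q : ℝ) ^ 2 - (q : ℝ) - 1))) *
                  ∏' p : Nat.Primes, (1 - 1 / (((p : ℕ) : ℝ) * (((p : ℕ) : ℝ) - 1))) with hδ
  set Q : ℕ → Prop := fun m => m.Prime ∧ ∃ x : ℕ, Y ≤ x ∧ (x:ℝ) ≤ Real.exp ((M:ℝ)^(1/100:ℝ)) ∧
        ε < |Pool.Agent.Helper6.artinP (b * (m:ℤ)^2) x / Nat.primeCounting x - δ| with hQ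
  have key : ∀ m x : ℕ, Pool.Agent.Helper6.artinP (b * (m:ℤ)^2) x =
      ((((Finset.range (x + 1)).filter
                  (fun p : ℕ => p.Prime ∧
                    orderOf ((b * (m : ℤ) ^ 2 : ℤ) : ZMod p) = p - 1)).card : ℕ) : ℝ) := by
    intro m x
    unfold Pool.Agent.Helper6.artinP
    congr!
  have hsub : (Finset.Icc 1 M).filter (fun l : ℕ => l.Prime ∧
          ¬ ((¬ ∃ k : ℤ, ∃ r : ℕ, 1 < r ∧ b * (l : ℤ) ^ 2 = k ^ r) ∧
            ∀ x : ℕ, Y ≤ x → (x : ℝ) ≤ Real.exp ((M : ℝ) ^ (1 / 100 : ℝ)) →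
              |((((Finset.range (x + 1)).filter
                  (fun p : ℕ => p.Prime ∧
                    orderOf ((b * (l : ℤ) ^ 2 : ℤ) : ZMod p) = p - 1)).card : ℕ) : ℝ) /
                  ((Nat.primeCounting x : ℕ) : ℝ) - δ| ≤ ε)) ⊆
      {b.natAbs} ∪ (Finset.Icc 1 M).filter Q := by
    intro m hm
    rw [Finset.mem_filter] at hm
    rw [Finset.mem_union, Finset.mem_filter, Finset.mem_singleton]
    by_cases hp : ∃ k : ℤ, ∃ r : ℕ, 1 < r ∧ b * (m : ℤ) ^ 2 = k ^ r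
    · exact Or.inl (not_power hb hb4 hb1 hm.2.1 hp)
    · right
      refine ⟨hm.1, hm.2.1, ?_⟩
      by_contra hq
      apply hm.2.2
      refine ⟨hp, ?_⟩
      intro x hx1 hx2
      by_contra hcon
      apply hq
      refine ⟨x, hx1, hx2, ?_⟩
      push Not at hcon
      rw [key]
      exact hcon
  have h3 := h1 ((Finset.Icc 1 M).filter Q) (Finset.filter_subset _ _)
    (fun m hm => (Finset.mem_filter.mp hm).2)
  have hM1 : (1:ℝ) ≤ M := by exact_mod_cast (by omega : 1 ≤ M)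
  have h5 : (1:ℝ) ≤ (M : ℝ) ^ (15 / 16 : ℝ) := Real.one_le_rpow hM1 (by norm_num)
  have h6 : 0 ≤ M * (Real.log Y) ^ 4 / Y := by positivity
  calc _ ≤ ((({b.natAbs} ∪ (Finset.Icc 1 M).filter Q : Finset ℕ).card : ℕ) : ℝ) := by
        exact_mod_cast Finset.card_le_card hsub
    _ ≤ (({b.natAbs} : Finset ℕ).card : ℝ) + (((Finset.Icc 1 M).filter Q).card : ℝ) := by
        exact_mod_cast Finset.card_union_le _ _
    _ ≤ 1 + C * (M * (Real.log Y) ^ 4 / Y + (M : ℝ) ^ (15 / 16 : ℝ)) := by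
        rw [Finset.card_singleton]; push_cast; linarith
    _ ≤ (C + 1) * (M * (Real.log Y) ^ 4 / Y + (M : ℝ) ^ (15 / 16 : ℝ)) := by
        linarith

end Pool.Agent.Results.MP_991e92_nt.SquareClassPrimes
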